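import Mathlib

/-!
# `A(n)` does not exist for any `n` divisible by `4`

If `4 ∣ n` then for no positive integer `A` are there positive rationals `x, y, z` with
`x + y + z = n` and `x y z = 1 / A`.
-/

namespace Pool.Agent.Results.MP_1d631c_nt.NoneForMultiplesOfFour

open NumberTheorySymbols

lemma jacobi_one_of_primes (a : ℤ) (b : ℕ) :
    (b ≠ 0) → (∀ p : ℕ, p.Prime → p ∣ b → J(a | p) = 1) → J(a | b) = 1 := by
  induction b using Nat.recOnMul with
  | zero => intro h; exact absurd rfl h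
  | one => intro _ _; exact jacobiSym.one_right a
  | prime p hp => intro _ h; exact h p hp dvd_rfl
  | mul m n hm hn =>
    intro h0 h
    have hm0 : m ≠ 0 := left_ne_zero_of_mul h0
    have hn0 : n ≠ 0 := right_ne_zero_of_mul h0
    rw [jacobiSym.mul_right' a hm0 hn0,
      hm hm0 (fun p hp hd => h p hp (hd.mul_right n)),
      hn hn0 (fun p hp hd => h p hp (hd.mul_left m)), one_mul]

/-- The reciprocity argument. -/
lemma contra (x u Y Z : ℕ) (hx : Odd x) (hcop : Nat.Coprime x u) (h8 : 8 ∣ x + u)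
    (hu0 : 0 < u) (hY : 0 < Y) (hZ : 0 < Z)
    (h12 : ∀ p : ℕ, p.Prime → p ∣ x * u → J(-((Y * Z : ℕ) : ℤ) | p) = 1)
    (h3 : ∀ p : ℕ, p.Prime → p ≠ 2 → p ∣ (x + u) * (Y * Z) →
      J(-((x * u : ℕ) : ℤ) | p) = 1) : False := by
  have hx0 : 0 < x := hx.pos
  have hu : Odd u := by
    rcases Nat.even_or_odd u with h | h
    · exfalso
      have h1 : Odd (x + u) := hx.add_even h
      have h2 : Even (x + u) := by
        obtain ⟨c, hc⟩ := h8
        exact ⟨4 * c, by omega⟩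
      exact (Nat.not_even_iff_odd.mpr h1) h2
    · exact h
  set k := x * u with hk
  have hkodd : Odd k := hx.mul hu
  have hk0 : k ≠ 0 := hkodd.pos.ne'
  -- `k ≡ 7 (mod 8)`
  have hk8 : k % 8 = 7 := by
    obtain ⟨c, hc⟩ := h8
    obtain ⟨a, ha⟩ := hx
    have h1 : x % 8 = 1 ∨ x % 8 = 3 ∨ x % 8 = 5 ∨ x % 8 = 7 := by omega
    have h2 : u % 8 = (8 - x % 8) % 8 := by omega
    rw [hk, Nat.mul_mod, h2]
    rcases h1 with h | h | h | h <;> rw [h]
  have hk4 : k % 4 = 3 := by omega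
  -- odd part of `W = (x+u) Y Z`
  set W := (x + u) * (Y * Z) with hW
  have hW0 : W ≠ 0 := by positivity
  obtain ⟨j, w, hwodd, hWw⟩ := Nat.exists_eq_two_pow_mul_odd hW0
  have hw0 : w ≠ 0 := hwodd.pos.ne'
  have hJw : J(-(k : ℤ) | w) = 1 := by
    apply jacobi_one_of_primes _ _ hw0
    intro p hp hd
    apply h3 p hp
    · rintro rfl
      exact (Nat.not_even_iff_odd.mpr hwodd) (even_iff_two_dvd.mpr hd)
    · rw [hWw]; exact hd.mul_left _
  -- `J(w | k) = 1`
  have hJwk : J((w : ℤ) | k) = 1 := by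
    have hneg := jacobiSym.neg (k : ℤ) hwodd
    rw [hJw] at hneg
    rcases Nat.odd_mod_four_iff.mp (Nat.odd_iff.mp hwodd) with h | h
    · rw [jacobiSym.quadratic_reciprocity_one_mod_four h hkodd]
      rw [ZMod.χ₄_nat_one_mod_four h, one_mul] at hneg
      exact hneg.symm
    · rw [jacobiSym.quadratic_reciprocity_three_mod_four h hk4]
      rw [ZMod.χ₄_nat_three_mod_four h] at hneg
      linarith
  have hJ2 : J(2 | k) = 1 := by
    rw [jacobiSym.at_two hkodd, ZMod.χ₈_nat_eq_if_mod_eight]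
    simp [hk8]
    omega
  have hJW : J((W : ℤ) | k) = 1 := by
    rw [hWw]
    push_cast
    rw [jacobiSym.mul_left, jacobiSym.pow_left, hJ2, one_pow, one_mul, hJwk]
  -- the other evaluation
  have hYZx : J(((Y * Z : ℕ) : ℤ) | x) = ZMod.χ₄ x := by
    have h1 : J(-((Y * Z : ℕ) : ℤ) | x) = 1 :=
      jacobi_one_of_primes _ _ hx0.ne' fun p hp hd => h12 p hp (hd.mul_right u)
    rw [jacobiSym.neg _ hx] at h1
    rcases Nat.odd_mod_four_iff.mp (Nat.odd_iff.mp hx) with h | h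
    · rw [ZMod.χ₄_nat_one_mod_four h] at h1 ⊢; linarith
    · rw [ZMod.χ₄_nat_three_mod_four h] at h1 ⊢; linarith
  have hYZu : J(((Y * Z : ℕ) : ℤ) | u) = ZMod.χ₄ u := by
    have h1 : J(-((Y * Z : ℕ) : ℤ) | u) = 1 :=
      jacobi_one_of_primes _ _ hu0.ne' fun p hp hd => h12 p hp (hd.mul_left x)
    rw [jacobiSym.neg _ hu] at h1
    rcases Nat.odd_mod_four_iff.mp (Nat.odd_iff.mp hu) with h | h
    · rw [ZMod.χ₄_nat_one_mod_four h] at h1 ⊢; linarith
    · rw [ZMod.χ₄_nat_three_mod_four h] at h1 ⊢; linarith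
  have htx : J(((x + u : ℕ) : ℤ) | x) = J((u : ℤ) | x) := by
    apply jacobiSym.mod_left'
    push_cast
    simp
  have htu : J(((x + u : ℕ) : ℤ) | u) = J((x : ℤ) | u) := by
    apply jacobiSym.mod_left'
    push_cast
    simp
  have hsplit : J((W : ℤ) | k) =
      (J((u : ℤ) | x) * ZMod.χ₄ x) * (J((x : ℤ) | u) * ZMod.χ₄ u) := by
    rw [hk, jacobiSym.mul_right' _ hx0.ne' hu0.ne', hW]
    have : (((x + u) * (Y * Z) : ℕ) : ℤ) = ((x + u : ℕ) : ℤ) * ((Y * Z : ℕ) : ℤ) := by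
      push_cast; ring
    rw [this, jacobiSym.mul_left, jacobiSym.mul_left, htx, htu, hYZx, hYZu]
  rw [hJW] at hsplit
  have hux : J((u : ℤ) | x) ^ 2 = 1 := jacobiSym.sq_one (by simpa using hcop.symm)
  have hmod : (x % 4 = 1 ∧ u % 4 = 3) ∨ (x % 4 = 3 ∧ u % 4 = 1) := by
    obtain ⟨a, ha⟩ := hx
    obtain ⟨c, hc⟩ := h8
    omega
  rcases hmod with ⟨h1, h2⟩ | ⟨h1, h2⟩
  · have hrec := jacobiSym.quadratic_reciprocity_one_mod_four h1 hu
    rw [hrec, ZMod.χ₄_nat_one_mod_four h1, ZMod.χ₄_nat_three_mod_four h2] at hsplit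
    nlinarith
  · have hrec := jacobiSym.quadratic_reciprocity_one_mod_four h2 hx
    rw [← hrec, ZMod.χ₄_nat_three_mod_four h1, ZMod.χ₄_nat_one_mod_four h2] at hsplit
    nlinarith

lemma jacobi_sq_of_modEq {a b : ℤ} {p : ℕ} (hp : p.Prime) (hb : ¬ (p : ℤ) ∣ b)
    (h : (p : ℤ) ∣ a - b ^ 2) : J(a | p) = 1 := by
  have h1 : J(a | p) = J(b ^ 2 | p) := by
    apply jacobiSym.mod_left'
    exact Int.emod_eq_emod_iff_emod_sub_eq_zero.mpr (Int.emod_eq_zero_of_dvd h)
  rw [h1]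
  apply jacobiSym.sq_one'
  rw [Int.gcd_comm]
  exact (Int.isCoprime_iff_gcd_eq_one.mp
    ((Prime.coprime_iff_not_dvd (Nat.prime_iff_prime_int.mp hp)).mpr hb))

lemma main_int (X Y Z N : ℕ) (hX : 0 < X) (hY : 0 < Y) (hZ : 0 < Z)
    (hXY : Nat.Coprime X Y) (hXZ : Nat.Coprime X Z) (hYZ : Nat.Coprime Y Z)
    (h : (X + Y + Z) ^ 3 = N * (X * Y * Z)) (hodd : Odd X) (h8 : 8 ∣ X + Y + Z) : False := by
  set s := X + Y + Z with hs
  have hs0 : 0 < s := by omega
  obtain ⟨g, x, t, hg0, hcop, hXg, hsg⟩ := Nat.exists_coprime' (m := X) (n := s)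
    (Nat.gcd_pos_of_pos_left s hX)
  -- `X = x * g`, `s = t * g`
  have hxodd : Odd x := by
    rw [hXg] at hodd
    exact (Nat.odd_mul.mp hodd).1
  have hgodd : Odd g := by
    rw [hXg] at hodd
    exact (Nat.odd_mul.mp hodd).2
  have ht8 : 8 ∣ t := by
    rw [hsg] at h8
    have hc : Nat.Coprime 8 g := by
      have : Nat.Coprime 2 g := (Nat.coprime_two_left).mpr hgodd
      exact Nat.Coprime.pow_left 3 this
    exact hc.dvd_of_dvd_mul_right h8
  have hxt : x < t := by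
    have h1 : X < s := by omega
    rw [hXg, hsg] at h1
    exact lt_of_mul_lt_mul_right h1 (Nat.zero_le g)
  obtain ⟨u, hu⟩ : ∃ u, t = x + u := ⟨t - x, by omega⟩
  have hu0 : 0 < u := by omega
  have hYZu : Y + Z = u * g := by
    have h1 : s = X + (Y + Z) := by omega
    rw [hsg, hXg, hu] at h1
    have : (x + u) * g = x * g + u * g := by ring
    omega
  have hcopxu : Nat.Coprime x u := by
    rw [hu] at hcop
    simpa using hcop
  have hpdvds : ∀ p : ℕ, p.Prime → p ∣ X * Y * Z → p ∣ s := by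
    intro p hp hd
    apply hp.dvd_of_dvd_pow (n := 3)
    rw [h]
    exact hd.mul_left N
  refine contra x u Y Z hxodd hcopxu (by rw [← hu]; exact ht8) hu0 hY hZ ?_ ?_
  · intro p hp hd
    have hsum : p ∣ Y + Z := by
      rcases hp.dvd_mul.mp hd with hd | hd
      · have h1 : p ∣ X := by rw [hXg]; exact hd.mul_right g
        have h2 : p ∣ s := hpdvds p hp ((h1.mul_right Y).mul_right Z)
        have h3 : s = X + (Y + Z) := by omega
        rw [h3] at h2
        exact (Nat.dvd_add_right h1).mp h2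
      · rw [hYZu]; exact hd.mul_right g
    have hnY : ¬ p ∣ Y := by
      intro hpY
      have hpZ : p ∣ Z := (Nat.dvd_add_right hpY).mp hsum
      exact hp.one_lt.ne' (Nat.eq_one_of_dvd_coprimes hYZ hpY hpZ)
    apply jacobi_sq_of_modEq hp (b := (Y : ℤ))
    · exact_mod_cast hnY
    · have : -((Y * Z : ℕ) : ℤ) - (Y : ℤ) ^ 2 = -(Y : ℤ) * ((Y + Z : ℕ) : ℤ) := by
        push_cast; ring
      rw [this]
      exact Dvd.dvd.mul_left (by exact_mod_cast hsum) _
  · intro p hp hp2 hd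
    rcases hp.dvd_mul.mp hd with hd | hd
    · -- `p ∣ t`
      have hnx : ¬ p ∣ x := by
        intro hpx
        have : p ∣ t := by rw [hu]; exact hd
        exact hp.one_lt.ne' (Nat.eq_one_of_dvd_coprimes hcop hpx this)
      apply jacobi_sq_of_modEq hp (b := (x : ℤ))
      · exact_mod_cast hnx
      · have : -((x * u : ℕ) : ℤ) - (x : ℤ) ^ 2 = -(x : ℤ) * ((x + u : ℕ) : ℤ) := by
          push_cast; ring
        rw [this]
        exact Dvd.dvd.mul_left (by exact_mod_cast hd) _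
    · -- `p ∣ Y` or `p ∣ Z`
      have hXYZ : p ∣ X * Y * Z := by
        rw [mul_assoc]; exact hd.mul_left X
      have hps : p ∣ s := hpdvds p hp hXYZ
      have hnX : ¬ p ∣ X := by
        intro hpX
        rcases hp.dvd_mul.mp hd with hd | hd
        · exact hp.one_lt.ne' (Nat.eq_one_of_dvd_coprimes hXY hpX hd)
        · exact hp.one_lt.ne' (Nat.eq_one_of_dvd_coprimes hXZ hpX hd)
      have hng : ¬ p ∣ g := fun hpg => hnX (by rw [hXg]; exact hpg.mul_left x)
      have h1 : J(-((x * u : ℕ) : ℤ) * (g : ℤ) ^ 2 | p) = 1 := by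
        apply jacobi_sq_of_modEq hp (b := (X : ℤ))
        · exact_mod_cast hnX
        · have h2 : -((x * u : ℕ) : ℤ) * (g : ℤ) ^ 2 - (X : ℤ) ^ 2 =
              -(X : ℤ) * ((s : ℕ) : ℤ) := by
            have e1 : (X : ℤ) = x * g := by exact_mod_cast hXg
            have e2 : (s : ℤ) = (x + u) * g := by
              have := hsg
              rw [hu] at this
              exact_mod_cast this
            rw [e1, e2]
            push_cast
            ring
          rw [h2]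
          exact Dvd.dvd.mul_left (by exact_mod_cast hps) _
      rw [jacobiSym.mul_left, jacobiSym.sq_one', mul_one] at h1
      · exact h1
      · rw [Int.gcd_comm]
        exact (Int.isCoprime_iff_gcd_eq_one.mp
          ((Prime.coprime_iff_not_dvd (Nat.prime_iff_prime_int.mp hp)).mpr
            (by exact_mod_cast hng)))

lemma eight_dvd {s : ℕ} (h : 128 ∣ s ^ 3) : 8 ∣ s := by
  have key : ∀ r < 128, r ^ 3 % 128 = 0 → r % 8 = 0 := by decide +kernel
  have h1 := key (s % 128) (Nat.mod_lt _ (by norm_num))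
    (by rw [← Nat.pow_mod]; exact Nat.mod_eq_zero_of_dvd h)
  omega

lemma no_int (X Y Z M : ℕ) (hX : 0 < X) (hY : 0 < Y) (hZ : 0 < Z)
    (hXY : Nat.Coprime X Y) (hXZ : Nat.Coprime X Z) (hYZ : Nat.Coprime Y Z)
    (h : (X + Y + Z) ^ 3 = 64 * M * (X * Y * Z)) : False := by
  have hseven : 2 ∣ X + Y + Z := by
    apply Nat.prime_two.dvd_of_dvd_pow (n := 3)
    rw [h]
    exact ⟨32 * M * (X * Y * Z), by ring⟩
  have h2 : 2 ∣ X * Y * Z := by
    by_contra hcon
    rw [Nat.prime_two.dvd_mul, Nat.prime_two.dvd_mul] at hcon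
    push Not at hcon
    omega
  have h128 : 128 ∣ (X + Y + Z) ^ 3 := by
    obtain ⟨c, hc⟩ := h2
    rw [h, hc]
    exact ⟨M * c, by ring⟩
  have h8 := eight_dvd h128
  rcases Nat.even_or_odd X with hXe | hXo
  · have hYo : Odd Y := by
      rcases Nat.even_or_odd Y with hYe | hYo
      · exfalso
        have := Nat.eq_one_of_dvd_coprimes hXY (even_iff_two_dvd.mp hXe)
          (even_iff_two_dvd.mp hYe)
        omega
      · exact hYo
    refine main_int Y X Z (64 * M) hY hX hZ hXY.symm hYZ hXZ ?_ hYo ?_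
    · rw [show Y + X + Z = X + Y + Z by ring, h]; ring
    · rwa [show Y + X + Z = X + Y + Z by ring]
  · exact main_int X Y Z (64 * M) hX hY hZ hXY hXZ hYZ h hXo h8

lemma no_int' (X Y Z M : ℕ) (hX : 0 < X) (hY : 0 < Y) (hZ : 0 < Z)
    (h : (X + Y + Z) ^ 3 = 64 * M * (X * Y * Z)) : False := by
  -- divide by the gcd
  set d := Nat.gcd X (Nat.gcd Y Z) with hd
  have hd0 : 0 < d := Nat.gcd_pos_of_pos_left _ hX
  obtain ⟨X', hX'⟩ : d ∣ X := Nat.gcd_dvd_left _ _
  obtain ⟨Y', hY'⟩ : d ∣ Y := (Nat.gcd_dvd_right _ _).trans (Nat.gcd_dvd_left _ _)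
  obtain ⟨Z', hZ'⟩ : d ∣ Z := (Nat.gcd_dvd_right _ _).trans (Nat.gcd_dvd_right _ _)
  have hgcd : Nat.gcd X' (Nat.gcd Y' Z') = 1 := by
    have h1 : d * Nat.gcd X' (Nat.gcd Y' Z') = d * 1 := by
      rw [← Nat.gcd_mul_left, ← Nat.gcd_mul_left, ← hX', ← hY', ← hZ', mul_one]
    exact Nat.eq_of_mul_eq_mul_left hd0 h1
  have hX0 : 0 < X' := Nat.pos_of_ne_zero (by rintro rfl; omega)
  have hY0 : 0 < Y' := Nat.pos_of_ne_zero (by rintro rfl; omega)
  have hZ0 : 0 < Z' := Nat.pos_of_ne_zero (by rintro rfl; omega)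
  have h' : (X' + Y' + Z') ^ 3 = 64 * M * (X' * Y' * Z') := by
    have h1 : d ^ 3 * (X' + Y' + Z') ^ 3 = d ^ 3 * (64 * M * (X' * Y' * Z')) := by
      calc d ^ 3 * (X' + Y' + Z') ^ 3 = (d * X' + d * Y' + d * Z') ^ 3 := by ring
        _ = (X + Y + Z) ^ 3 := by rw [← hX', ← hY', ← hZ']
        _ = 64 * M * (X * Y * Z) := h
        _ = 64 * M * ((d * X') * (d * Y') * (d * Z')) := by rw [← hX', ← hY', ← hZ']
        _ = d ^ 3 * (64 * M * (X' * Y' * Z')) := by ring
    exact Nat.eq_of_mul_eq_mul_left (pow_pos hd0 3) h1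
  have hdvd : ∀ p : ℕ, p.Prime → p ∣ X' * Y' * Z' → p ∣ X' + Y' + Z' := by
    intro p hp hpd
    apply hp.dvd_of_dvd_pow (n := 3)
    rw [h']
    exact hpd.mul_left _
  have hno : ∀ p : ℕ, p.Prime → p ∣ X' → p ∣ Y' → p ∣ Z' → False := by
    intro p hp h1 h2 h3
    have := Nat.dvd_gcd h1 (Nat.dvd_gcd h2 h3)
    rw [hgcd] at this
    exact hp.one_lt.ne' (Nat.dvd_one.mp this)
  refine no_int X' Y' Z' M hX0 hY0 hZ0 ?_ ?_ ?_ h'
  · apply Nat.coprime_of_dvd
    intro p hp h1 h2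
    have h3 := hdvd p hp ((h1.mul_right Y').mul_right Z')
    exact hno p hp h1 h2 ((Nat.dvd_add_right (dvd_add h1 h2)).mp h3)
  · apply Nat.coprime_of_dvd
    intro p hp h1 h2
    have h3 := hdvd p hp ((h1.mul_right Y').mul_right Z')
    have h4 : X' + Y' + Z' = (X' + Z') + Y' := by ring
    rw [h4] at h3
    exact hno p hp h1 ((Nat.dvd_add_right (dvd_add h1 h2)).mp h3) h2
  · apply Nat.coprime_of_dvd
    intro p hp h1 h2
    have h3 := hdvd p hp (h2.mul_left _)
    have h4 : X' + Y' + Z' = (Y' + Z') + X' := by ring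
    rw [h4] at h3
    exact hno p hp ((Nat.dvd_add_right (dvd_add h1 h2)).mp h3) h1 h2

/-- For `n` divisible by `4` no positive integer `A` makes the system solvable in positive
rationals. -/
theorem result : ∀ n : ℕ, 0 < n → 4 ∣ n → ∀ A : ℕ, 0 < A →
    ¬ ∃ x y z : ℚ, 0 < x ∧ 0 < y ∧ 0 < z ∧ (n : ℚ) = x + y + z ∧ x * y * z = 1 / A := by
  rintro n hn ⟨m, rfl⟩ A hA ⟨x, y, z, hx, hy, hz, hsum, hprod⟩
  obtain ⟨a, ha⟩ : ∃ a : ℕ, (a : ℤ) = x.num :=
    ⟨x.num.toNat, Int.toNat_of_nonneg (Rat.num_pos.mpr hx).le⟩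
  obtain ⟨b, hb⟩ : ∃ b : ℕ, (b : ℤ) = y.num :=
    ⟨y.num.toNat, Int.toNat_of_nonneg (Rat.num_pos.mpr hy).le⟩
  obtain ⟨c, hc⟩ : ∃ c : ℕ, (c : ℤ) = z.num :=
    ⟨z.num.toNat, Int.toNat_of_nonneg (Rat.num_pos.mpr hz).le⟩
  have ha0 : 0 < a := by have := Rat.num_pos.mpr hx; omega
  have hb0 : 0 < b := by have := Rat.num_pos.mpr hy; omega
  have hc0 : 0 < c := by have := Rat.num_pos.mpr hz; omega
  have hxe : (a : ℚ) = x * x.den := by
    have h1 : (a : ℚ) = (x.num : ℚ) := by exact_mod_cast ha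
    rw [h1, Rat.mul_den_eq_num]
  have hye : (b : ℚ) = y * y.den := by
    have h1 : (b : ℚ) = (y.num : ℚ) := by exact_mod_cast hb
    rw [h1, Rat.mul_den_eq_num]
  have hze : (c : ℚ) = z * z.den := by
    have h1 : (c : ℚ) = (z.num : ℚ) := by exact_mod_cast hc
    rw [h1, Rat.mul_den_eq_num]
  have hdx := x.den_pos
  have hdy := y.den_pos
  have hdz := z.den_pos
  refine no_int' (a * y.den * z.den) (b * x.den * z.den) (c * x.den * y.den) (m ^ 3 * A)
    (by positivity) (by positivity) (by positivity) ?_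
  have hcast : (((a * y.den * z.den + b * x.den * z.den + c * x.den * y.den) ^ 3 : ℕ) : ℚ) =
      ((64 * (m ^ 3 * A) * ((a * y.den * z.den) * (b * x.den * z.den) *
        (c * x.den * y.den)) : ℕ) : ℚ) := by
    push_cast
    have hdxq : (x.den : ℚ) ≠ 0 := by positivity
    have hdyq : (y.den : ℚ) ≠ 0 := by positivity
    have hdzq : (z.den : ℚ) ≠ 0 := by positivity
    have hAq : (A : ℚ) ≠ 0 := by positivity
    have e1 : (a : ℚ) * y.den * z.den + b * x.den * z.den + c * x.den * y.den =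
        (x + y + z) * (x.den * y.den * z.den) := by
      rw [hxe, hye, hze]
      ring
    have e2 : ((a : ℚ) * y.den * z.den) * (b * x.den * z.den) * (c * x.den * y.den) =
        (x * y * z) * (x.den * y.den * z.den) ^ 3 := by
      rw [hxe, hye, hze]
      ring
    rw [e1, e2, hprod, ← hsum]
    push_cast
    field_simp
    ring
  exact_mod_cast hcast

end Pool.Agent.Results.MP_1d631c_nt.NoneForMultiplesOfFour
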